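import Mathlib
import Pool.Agent.H964.QC.Stm
import Pool.Agent.H964.QC.Stm2

/-!
# Project QC: the backward induction over the blocks (CHAIN)
-/

set_option autoImplicit false

open MeasureTheory ProbabilityTheory Filter Finset
open Pool.Agent.H964.QC

namespace Pool.Agent.H236.QC

theorem RR_succ (n : ℕ) : RR (n + 1) = RR n + rr (n + 1) := by
  unfold RR
  rw [Finset.sum_Icc_succ_top (by omega)]

theorem RR_mono (h0 : ∀ n : ℕ, 0 < rr n) : Monotone RR :=
  monotone_nat_of_le_succ (fun n => by rw [RR_succ]; linarith [h0 (n + 1)])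

/-- The gain in one block. -/
theorem gain {L L' : ℝ} (hL : 4 ≤ L) (hL' : 0 < L') (h : L' ≤ L - Real.sqrt L) :
    1 / 4 * L ^ (-(3 / 4) : ℝ) ≤ L' ^ (-(1 / 4) : ℝ) - L ^ (-(1 / 4) : ℝ) := by
  have hL0 : 0 < L := by linarith
  set y : ℝ := L ^ (-(1 / 2) : ℝ) with hy
  have hy0 : 0 < y := Real.rpow_pos_of_pos hL0 _
  have hs2 : 2 ≤ Real.sqrt L := by
    rw [show (2 : ℝ) = Real.sqrt 4 by
      rw [show (4 : ℝ) = 2 ^ 2 by norm_num]; exact (Real.sqrt_sq (by norm_num)).symm]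
    exact Real.sqrt_le_sqrt hL
  have hyinv : y = (Real.sqrt L)⁻¹ := by
    rw [hy, Real.rpow_neg hL0.le, Real.sqrt_eq_rpow]
  have hy1 : y ≤ 1 / 2 := by
    rw [hyinv, ← one_div]
    exact one_div_le_one_div_of_le (by norm_num) hs2
  have hLy : L - Real.sqrt L = L * (1 - y) := by
    rw [hyinv]
    have h1 : Real.sqrt L ≠ 0 := by linarith
    have h2 : Real.sqrt L * Real.sqrt L = L := Real.mul_self_sqrt hL0.le
    have h3 : L * (Real.sqrt L)⁻¹ = Real.sqrt L := by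
      rw [← h2, mul_assoc, Real.sqrt_mul_self (Real.sqrt_nonneg L), mul_inv_cancel₀ h1, mul_one]
    rw [mul_sub, mul_one, h3]
  have hb : (1 - y) ^ (1 / 4 : ℝ) ≤ 1 - y / 4 := by
    have := rpow_one_add_le_one_add_mul_self (s := -y) (by linarith) (p := 1 / 4)
      (by norm_num) (by norm_num)
    have h1 : (1 : ℝ) + -y = 1 - y := by ring
    rw [h1] at this
    linarith
  have hL'b : L' ^ (1 / 4 : ℝ) ≤ L ^ (1 / 4 : ℝ) * (1 - y / 4) := by
    calc L' ^ (1 / 4 : ℝ) ≤ (L * (1 - y)) ^ (1 / 4 : ℝ) :=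
          Real.rpow_le_rpow hL'.le (by rw [← hLy]; exact h) (by norm_num)
      _ = L ^ (1 / 4 : ℝ) * (1 - y) ^ (1 / 4 : ℝ) := Real.mul_rpow hL0.le (by linarith)
      _ ≤ _ := mul_le_mul_of_nonneg_left hb (Real.rpow_nonneg hL0.le _)
  have hp : 0 < L ^ (1 / 4 : ℝ) := Real.rpow_pos_of_pos hL0 _
  have hp' : 0 < L' ^ (1 / 4 : ℝ) := Real.rpow_pos_of_pos hL' _
  have h3 : L ^ (-(3 / 4) : ℝ) = L ^ (-(1 / 4) : ℝ) * y := by
    rw [hy, ← Real.rpow_add hL0]; norm_num
  have h4 : L ^ (-(1 / 4) : ℝ) * (1 + y / 4) ≤ L' ^ (-(1 / 4) : ℝ) := by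
    rw [Real.rpow_neg hL0.le, Real.rpow_neg hL'.le]
    have h5 : (L ^ (1 / 4 : ℝ) * (1 - y / 4))⁻¹ ≤ (L' ^ (1 / 4 : ℝ))⁻¹ :=
      inv_anti₀ hp' hL'b
    have h6 : (1 + y / 4) ≤ (1 - y / 4)⁻¹ := by
      rw [le_inv_comm₀ (by linarith) (by linarith), ← one_div, le_div_iff₀ (by linarith)]
      nlinarith
    calc (L ^ (1 / 4 : ℝ))⁻¹ * (1 + y / 4) ≤ (L ^ (1 / 4 : ℝ))⁻¹ * (1 - y / 4)⁻¹ :=
          mul_le_mul_of_nonneg_left h6 (by positivity)
      _ = (L ^ (1 / 4 : ℝ) * (1 - y / 4))⁻¹ := by rw [mul_inv]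
      _ ≤ _ := h5
  rw [h3]
  linarith

/-- The first block is long. -/
theorem long {A : ℝ} {T : ℕ} (hA : 256 ≤ A) (hT : 1 ≤ T)
    (h : Real.sqrt A ≤ 1 / 2 + 1 / 2 * Real.log T) : A ^ 4 ≤ T := by
  have hA0 : 0 < A := by linarith
  have ha : 16 ≤ Real.sqrt A := by
    rw [show (16 : ℝ) = Real.sqrt (16 ^ 2) by rw [Real.sqrt_sq (by norm_num)]]
    exact Real.sqrt_le_sqrt (by norm_num; linarith)
  have ha0 : 0 < Real.sqrt A := by linarith
  have hTpos : (0 : ℝ) < T := by exact_mod_cast hT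
  have hlog : Real.log (Real.sqrt A) ≤ 4 * Real.log 2 + (Real.sqrt A - 16) / 16 := by
    have h1 : Real.log (Real.sqrt A / 16) ≤ Real.sqrt A / 16 - 1 :=
      Real.log_le_sub_one_of_pos (by positivity)
    rw [Real.log_div ha0.ne' (by norm_num)] at h1
    have h2 : Real.log 16 = 4 * Real.log 2 := by
      rw [show (16 : ℝ) = 2 ^ 4 by norm_num, Real.log_pow]; norm_num
    rw [h2] at h1
    linarith
  have hlog2 := Real.log_two_lt_d9
  have h3 : 8 * Real.log (Real.sqrt A) ≤ Real.log T := by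
    have h4 : 2 * Real.sqrt A - 1 ≤ Real.log T := by linarith
    nlinarith
  have h5 : Real.log (A ^ 4) ≤ Real.log T := by
    have h6 : Real.log (A ^ 4) = 8 * Real.log (Real.sqrt A) := by
      rw [Real.log_pow, Real.log_sqrt hA0.le]; push_cast; ring
    rw [h6]; exact h3
  exact (Real.log_le_log_iff (by positivity) hTpos).mp h5

theorem t_CHAIN : S_CHAIN := by
  intro hRR hS hB hI C0 κ hC0 hκ
  obtain ⟨C1, L1, hC1, hL1, H1⟩ := hS C0 κ hC0 hκ
  obtain ⟨C2, L2, hC2, hL2, H2⟩ := hB C0 κ hC0 hκ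
  obtain ⟨C3, L3, hC3, hL3, H3⟩ := hI C0 κ hC0 hκ
  obtain ⟨hr0, hr1, hr2, hr3, hr4, hr5, hr6⟩ := hRR
  have hmono := RR_mono hr0
  have hrr1 : ∀ n : ℕ, rr n ≤ 1 := fun n => (hr1 n).trans (by
    rw [div_le_one (by positivity)]
    have : (0 : ℝ) ≤ n := n.cast_nonneg
    linarith)
  obtain ⟨K, hK⟩ : ∃ K : ℝ, K = C2 + 4 * C1 := ⟨_, rfl⟩
  have hK0 : 0 < K := by rw [hK]; linarith
  refine ⟨3 * K + C3, L1 + L2 + L3 + 256, by linarith, by linarith, ?_⟩
  intro V _ _ N0 W Ω _ P _ s2 η x0 N Ls u hs hL0 hη hcls hd hLs hLs0 hLs2 hN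
  have hu : 0 < 1 + u ^ 4 := by positivity
  have hLspos : 0 < Ls := by linarith
  have hLt : ∀ t : ℕ, t ≤ N → Ls ≤ 1 / s2 - RR t := fun t ht => by
    have := hmono ht
    rw [hLs]; linarith
  have hneg : ∀ x : ℝ, Ls ≤ x → x ^ (-(1 / 4) : ℝ) ≤ Ls ^ (-(1 / 4) : ℝ) := fun x hx =>
    Real.rpow_le_rpow_of_nonpos hLspos hx (by norm_num)
  have hLsq : 0 < Ls ^ (-(1 / 4) : ℝ) := Real.rpow_pos_of_pos hLspos _
  have claim : ∀ n t : ℕ, N - t = n → t ≤ N → 1 / s2 ^ 4 ≤ (t : ℝ) → ∀ w : V → ℝ,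
      Good W t (1 / s2 - RR t) w →
      ‖chi W P η u (1 / 2 * Real.log ((1 / s2 - RR t) / Ls)) (N - t) w -
        Complex.exp ((-(u ^ 2 / 2 * Real.log ((1 / s2 - RR t) / Ls)) : ℝ))‖ ≤
        K * (1 + u ^ 4) * (3 * Ls ^ (-(1 / 4) : ℝ) - (1 / s2 - RR t) ^ (-(1 / 4) : ℝ)) := by
    intro n
    induction n using Nat.strong_induction_on with
    | _ n ih =>
      intro t htn htN ht w hw
      have hLtt := hLt t htN
      have ht1 : 1 ≤ t := by
        have h1 : 1 ≤ 1 / s2 := by linarith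
        have h2 : (1 : ℝ) ≤ 1 / s2 ^ 4 := by
          rw [← one_div_pow]
          exact one_le_pow₀ h1
        have h3 : (1 : ℝ) ≤ t := h2.trans ht
        exact_mod_cast h3
      by_cases hcase : RR N - RR t ≤ Real.sqrt (1 / s2 - RR t)
      · have hNt : t + (N - t) = N := by omega
        have h1 := H2 V N0 W Ω P s2 η w t (N - t) (1 / s2 - RR t) Ls u hs hη rfl
          (by rw [hNt]; exact hLs) (by linarith) (by rw [hNt]; exact hcase) ht1
          (by rw [hNt]; exact hN) hw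
        refine h1.trans ?_
        have h2 := hneg _ hLtt
        have h3 : C2 ≤ K := by rw [hK]; linarith
        calc C2 * (1 + u ^ 4) * Ls ^ (-(1 / 4) : ℝ) ≤ K * (1 + u ^ 4) * Ls ^ (-(1 / 4) : ℝ) := by
              gcongr
          _ ≤ K * (1 + u ^ 4) * (3 * Ls ^ (-(1 / 4) : ℝ) - (1 / s2 - RR t) ^ (-(1 / 4) : ℝ)) := by
              refine mul_le_mul_of_nonneg_left ?_ (by positivity)
              linarith
      · have hcase' : Real.sqrt (1 / s2 - RR t) < RR N - RR t := not_le.mp hcase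
        have hex : ∃ T : ℕ, Real.sqrt (1 / s2 - RR t) ≤ RR (t + T) - RR t :=
          ⟨N - t, by rw [show t + (N - t) = N by omega]; exact hcase'.le⟩
        classical
        set T := Nat.find hex with hT
        have hT1 : Real.sqrt (1 / s2 - RR t) ≤ RR (t + T) - RR t := Nat.find_spec hex
        have hTN : T ≤ N - t := Nat.find_min' hex (by
          rw [show t + (N - t) = N by omega]; exact hcase'.le)
        have hsq : 0 < Real.sqrt (1 / s2 - RR t) := Real.sqrt_pos.mpr (by linarith)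
        have hT0 : T ≠ 0 := fun h0 => by
          rw [h0, add_zero, sub_self] at hT1
          linarith
        obtain ⟨T', hT'⟩ := Nat.exists_eq_succ_of_ne_zero hT0
        have hT2 : RR (t + T) - RR t ≤ Real.sqrt (1 / s2 - RR t) + 1 := by
          have h1 : ¬ (Real.sqrt (1 / s2 - RR t) ≤ RR (t + T') - RR t) :=
            Nat.find_min hex (by rw [← hT, hT']; exact Nat.lt_succ_self _)
          have h2 : RR (t + T) = RR (t + T') + rr (t + T' + 1) := by
            rw [hT', Nat.succ_eq_add_one, ← add_assoc, RR_succ]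
          have h3 := hrr1 (t + T' + 1)
          rw [h2]
          linarith [not_le.mp h1]
        have htT : t + T ≤ N := by omega
        have hLt' := hLt (t + T) htT
        have ht' : 1 / s2 ^ 4 ≤ ((t + T : ℕ) : ℝ) := by
          push_cast
          have : (0 : ℝ) ≤ T := T.cast_nonneg
          linarith
        have hih := ih (N - (t + T)) (by omega) (t + T) rfl htT ht'
        have hjT : N - (t + T) + T = N - t := by omega
        have he : 0 ≤ K * (1 + u ^ 4) *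
            (3 * Ls ^ (-(1 / 4) : ℝ) - (1 / s2 - RR (t + T)) ^ (-(1 / 4) : ℝ)) := by
          have := hneg _ hLt'
          refine mul_nonneg (by positivity) ?_
          linarith
        have h1 := H1 V N0 W Ω P s2 η w t T (N - (t + T)) (1 / s2 - RR t) (1 / s2 - RR (t + T)) Ls
          u _ hs hη rfl rfl (by linarith) hLt' hT1 hT2 ht (by omega) hw he hih
        rw [hjT] at h1
        refine h1.trans ?_
        have hg := gain (L := 1 / s2 - RR t) (L' := 1 / s2 - RR (t + T)) (by linarith)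
          (by linarith) (by linarith)
        have hC1K : C1 ≤ K * (1 / 4) := by rw [hK]; linarith
        have h3 : 0 ≤ (1 / s2 - RR t) ^ (-(3 / 4) : ℝ) := Real.rpow_nonneg (by linarith) _
        calc K * (1 + u ^ 4) * (3 * Ls ^ (-(1 / 4) : ℝ) - (1 / s2 - RR (t + T)) ^ (-(1 / 4) : ℝ)) +
              C1 * (1 + u ^ 4) * (1 / s2 - RR t) ^ (-(3 / 4) : ℝ)
            ≤ K * (1 + u ^ 4) * (3 * Ls ^ (-(1 / 4) : ℝ) - (1 / s2 - RR (t + T)) ^ (-(1 / 4) : ℝ)) +
              (K * (1 / 4)) * (1 + u ^ 4) * (1 / s2 - RR t) ^ (-(3 / 4) : ℝ) := by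
              gcongr
          _ = K * (1 + u ^ 4) * (3 * Ls ^ (-(1 / 4) : ℝ) - (1 / s2 - RR (t + T)) ^ (-(1 / 4) : ℝ)
                + 1 / 4 * (1 / s2 - RR t) ^ (-(3 / 4) : ℝ)) := by ring
          _ ≤ _ := by
              refine mul_le_mul_of_nonneg_left ?_ (by positivity)
              linarith
  -- the first block
  have hRN : Real.sqrt (1 / s2) ≤ RR N := by
    have h1 : RR N = 1 / s2 - Ls := by rw [hLs]; ring
    have h2 : 1 / 2 * (1 / s2) ≤ RR N := by rw [h1]; linarith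
    refine le_trans ?_ h2
    have h3 : Real.sqrt (1 / s2) * Real.sqrt (1 / s2) = 1 / s2 :=
      Real.mul_self_sqrt (by linarith)
    have h4 : 2 ≤ Real.sqrt (1 / s2) := by
      rw [show (2 : ℝ) = Real.sqrt (2 ^ 2) by rw [Real.sqrt_sq (by norm_num)]]
      exact Real.sqrt_le_sqrt (by linarith)
    nlinarith
  have hex : ∃ T : ℕ, Real.sqrt (1 / s2) ≤ RR T := ⟨N, hRN⟩
  classical
  set T := Nat.find hex with hT
  have hT1 : Real.sqrt (1 / s2) ≤ RR T := Nat.find_spec hex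
  have hTN : T ≤ N := Nat.find_min' hex hRN
  have hsq : 0 < Real.sqrt (1 / s2) := Real.sqrt_pos.mpr (by linarith)
  have hT0 : T ≠ 0 := fun h0 => by
    rw [h0] at hT1
    have : RR 0 = 0 := by simp [RR]
    linarith
  obtain ⟨T', hT'⟩ := Nat.exists_eq_succ_of_ne_zero hT0
  have hT2 : RR T ≤ Real.sqrt (1 / s2) + 1 := by
    have h1 : ¬ (Real.sqrt (1 / s2) ≤ RR T') :=
      Nat.find_min hex (by rw [← hT, hT']; exact Nat.lt_succ_self _)
    have h2 : RR T = RR T' + rr (T' + 1) := by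
      rw [hT', Nat.succ_eq_add_one, RR_succ]
    have h3 := hrr1 (T' + 1)
    rw [h2]
    linarith [not_le.mp h1]
  have hT4 : 1 / s2 ^ 4 ≤ (T : ℝ) := by
    rw [← one_div_pow]
    refine long (by linarith) (by omega) (hT1.trans (hr6 T (by omega)))
  have hLT := hLt T hTN
  have hc := claim (N - T) T rfl hTN hT4
  have he : 0 ≤ K * (1 + u ^ 4) *
      (3 * Ls ^ (-(1 / 4) : ℝ) - (1 / s2 - RR T) ^ (-(1 / 4) : ℝ)) := by
    have := hneg _ hLT
    refine mul_nonneg (by positivity) ?_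
    linarith
  have h1 := H3 V N0 W Ω P s2 η x0 T (N - T) (1 / s2 - RR T) Ls u _ hs hη hcls hd rfl
    (by linarith) hLT hT1 hT2 (by omega) he hc
  rw [show N - T + T = N by omega] at h1
  refine h1.trans ?_
  have h2 : 0 ≤ (1 / s2 - RR T) ^ (-(1 / 4) : ℝ) := Real.rpow_nonneg (by linarith) _
  calc K * (1 + u ^ 4) * (3 * Ls ^ (-(1 / 4) : ℝ) - (1 / s2 - RR T) ^ (-(1 / 4) : ℝ)) +
        C3 * (1 + u ^ 4) * Ls ^ (-(1 / 4) : ℝ)
      ≤ K * (1 + u ^ 4) * (3 * Ls ^ (-(1 / 4) : ℝ)) +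
        C3 * (1 + u ^ 4) * Ls ^ (-(1 / 4) : ℝ) := by
        gcongr
        linarith
    _ = (3 * K + C3) * (1 + u ^ 4) * Ls ^ (-(1 / 4) : ℝ) := by ring

end Pool.Agent.H236.QC
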