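import Mathlib
import Pool.Agent.H964.QC.Stm
import Pool.Agent.H964.QC.Stm2

/-!
# Project QC: one step of the backward induction (STEP)
-/

set_option autoImplicit false

open MeasureTheory ProbabilityTheory Filter Finset
open Pool.Agent.H964.QC

namespace Pool.Agent.H236.QC

/-- The bookkeeping of the error terms. -/
theorem err_bound {L d e f Cb : ℝ} (hL : 16 ≤ L) (hCb : 1 ≤ Cb)
    (hd0 : 0 ≤ d) (hd : d ≤ 4 / Real.sqrt L) (he : e = Cb * (1 + Real.log L) / L)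
    (hf : f = Cb / L) :
    e ≤ 5 * Cb * L ^ (-(3 / 4) : ℝ) ∧ f ≤ Cb * L ^ (-(3 / 4) : ℝ) ∧
      Real.sqrt ((d + e) * f) ≤ 3 * Cb * L ^ (-(3 / 4) : ℝ) ∧
      d ^ 2 ≤ 16 * L ^ (-(3 / 4) : ℝ) ∧ 0 ≤ e ∧ 0 ≤ f := by
  have hL0 : 0 < L := by linarith
  have hL1 : 1 ≤ L := by linarith
  set q : ℝ := L ^ (1 / 4 : ℝ) with hq
  have hq0 : 0 < q := Real.rpow_pos_of_pos hL0 _
  have hq1 : 1 ≤ q := Real.one_le_rpow hL1 (by norm_num)
  have hq4 : q ^ 4 = L := by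
    rw [hq, ← Real.rpow_natCast, ← Real.rpow_mul hL0.le]; norm_num
  have hq3 : L ^ (-(3 / 4) : ℝ) = (q ^ 3)⁻¹ := by
    rw [hq, ← Real.rpow_natCast, ← Real.rpow_mul hL0.le, ← Real.rpow_neg hL0.le]; norm_num
  have hsq : Real.sqrt L = q ^ 2 := by
    rw [← hq4, show q ^ 4 = (q ^ 2) ^ 2 by ring, Real.sqrt_sq (by positivity)]
  have hlog : Real.log L ≤ 4 * q := by
    rw [← hq4, Real.log_pow]
    have := Real.log_le_sub_one_of_pos hq0
    push_cast
    linarith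
  have hlog0 : 0 ≤ Real.log L := Real.log_nonneg hL1
  rw [hq3]
  have he1 : e ≤ 5 * Cb * (q ^ 3)⁻¹ := by
    rw [he, ← hq4, div_le_iff₀ (by positivity)]
    rw [hq4]
    calc Cb * (1 + Real.log L) ≤ Cb * (5 * q) := by
          refine mul_le_mul_of_nonneg_left ?_ (by linarith)
          linarith
      _ = 5 * Cb * (q ^ 3)⁻¹ * q ^ 4 := by
          field_simp
      _ = 5 * Cb * (q ^ 3)⁻¹ * L := by rw [hq4]
  have hf1 : f ≤ Cb * (q ^ 3)⁻¹ := by
    rw [hf, div_eq_mul_inv]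
    refine mul_le_mul_of_nonneg_left ?_ (by linarith)
    rw [← hq4]
    refine inv_anti₀ (by positivity) ?_
    exact pow_le_pow_right₀ hq1 (by norm_num)
  have he0 : 0 ≤ e := by rw [he]; positivity
  have hf0 : 0 ≤ f := by rw [hf]; positivity
  have hd1 : d ≤ 4 * (q ^ 2)⁻¹ := by
    rw [hsq] at hd
    rw [← div_eq_mul_inv]; exact hd
  have hq32 : (q ^ 3)⁻¹ ≤ (q ^ 2)⁻¹ :=
    inv_anti₀ (by positivity) (pow_le_pow_right₀ hq1 (by norm_num))
  refine ⟨he1, hf1, ?_, ?_, he0, hf0⟩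
  · have h1 : (d + e) * f ≤ (3 * Cb * (q ^ 3)⁻¹) ^ 2 := by
      have h2 : d + e ≤ 9 * Cb * (q ^ 2)⁻¹ := by
        calc d + e ≤ 4 * (q ^ 2)⁻¹ + 5 * Cb * (q ^ 2)⁻¹ := by
              have : 5 * Cb * (q ^ 3)⁻¹ ≤ 5 * Cb * (q ^ 2)⁻¹ :=
                mul_le_mul_of_nonneg_left hq32 (by linarith)
              linarith
          _ ≤ 4 * Cb * (q ^ 2)⁻¹ + 5 * Cb * (q ^ 2)⁻¹ := by
              have : 4 * (q ^ 2)⁻¹ ≤ 4 * Cb * (q ^ 2)⁻¹ :=
                mul_le_mul_of_nonneg_right (by linarith) (by positivity)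
              linarith
          _ = 9 * Cb * (q ^ 2)⁻¹ := by ring
      have h3 : f = Cb * (q ^ 4)⁻¹ := by rw [hf, hq4, div_eq_mul_inv]
      calc (d + e) * f ≤ (9 * Cb * (q ^ 2)⁻¹) * f := mul_le_mul_of_nonneg_right h2 hf0
        _ = (3 * Cb * (q ^ 3)⁻¹) ^ 2 := by
            rw [h3]; field_simp; ring
    calc Real.sqrt ((d + e) * f) ≤ Real.sqrt ((3 * Cb * (q ^ 3)⁻¹) ^ 2) := Real.sqrt_le_sqrt h1
      _ = 3 * Cb * (q ^ 3)⁻¹ := Real.sqrt_sq (by positivity)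
  · calc d ^ 2 ≤ (4 * (q ^ 2)⁻¹) ^ 2 := pow_le_pow_left₀ hd0 hd1 2
      _ = 16 * (q ^ 4)⁻¹ := by field_simp; ring
      _ ≤ 16 * (q ^ 3)⁻¹ := by
          refine mul_le_mul_of_nonneg_left ?_ (by norm_num)
          exact inv_anti₀ (by positivity) (pow_le_pow_right₀ hq1 (by norm_num))

/-- `d = log (L / L')` is small. -/
theorem d_bound {L L' : ℝ} (hL : 16 ≤ L) (h1 : L' ≤ L) (h2 : L - L' ≤ Real.sqrt L + 1) :
    0 < L' ∧ 0 ≤ Real.log (L / L') ∧ Real.log (L / L') ≤ 4 / Real.sqrt L ∧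
      Real.log (L / L') ≤ 1 := by
  have hL0 : 0 < L := by linarith
  set a := Real.sqrt L with ha
  have ha2 : a * a = L := Real.mul_self_sqrt hL0.le
  have ha4 : 4 ≤ a := by
    rw [ha, show (4 : ℝ) = Real.sqrt (4 ^ 2) by rw [Real.sqrt_sq (by norm_num)]]
    exact Real.sqrt_le_sqrt (by norm_num; linarith)
  have hL' : L / 2 ≤ L' := by nlinarith
  have hL'0 : 0 < L' := by linarith
  have h3 : Real.log (L / L') ≤ L / L' - 1 := Real.log_le_sub_one_of_pos (by positivity)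
  have h4 : L / L' - 1 ≤ 4 / a := by
    rw [div_sub_one hL'0.ne', div_le_div_iff₀ hL'0 (by linarith)]
    nlinarith
  refine ⟨hL'0, ?_, h3.trans h4, (h3.trans h4).trans ?_⟩
  · refine Real.log_nonneg ?_
    rw [le_div_iff₀ hL'0]
    linarith
  · rw [div_le_one (by linarith)]
    exact ha4

theorem t_STEP (hF : S_FRZ) : S_STEP := by
  intro hME hIND hDU hCHN hGM hLV hRR hM2 hBLK C0 κ hC0 hκ
  obtain ⟨Cb, Lb, hCb, hLb, HB⟩ := hBLK C0 κ hC0 hκ
  obtain ⟨Cl, hCl, HL⟩ := hLV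
  refine ⟨2 * Cb + Cl * (9 * Cb + 16), Lb + (5 * Cb) ^ 2 + 16, by nlinarith, by nlinarith, ?_⟩
  intro V _ _ N0 W Ω _ P _ s2 η w t T j L L' Ls u e0 hs hη hL hL' hLs0 hLs hT1 hT2 ht hN hw he0 hih
  have hη' : Noise P s2 κ (fun n v => η (j + n) v) := (hIND V Ω P s2 κ η hη j).2.2
  have hcfg : ∀ ω, cfg (fun n v => η (j + n) v) ω = sft j (cfg η ω) := fun ω => rfl
  have hsqn := Real.sqrt_nonneg L
  have hLL' : L' ≤ L := by
    have : L - L' = RR (t + T) - RR t := by rw [hL, hL']; ring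
    linarith
  have hLd : L - L' ≤ Real.sqrt L + 1 := by
    have : L - L' = RR (t + T) - RR t := by rw [hL, hL']; ring
    linarith
  have hCb2 : 0 ≤ (5 * Cb) ^ 2 := by positivity
  have hL16 : 16 ≤ L := by linarith
  have hL0 : 0 < L := by linarith
  obtain ⟨hL'0, hd0, hd1, hd2⟩ := d_bound hL16 hLL' hLd
  have hLspos : 0 < Ls := by linarith
  obtain ⟨he1, hf1, hsq1, hdd1, he2, hf2⟩ := err_bound hL16 hCb hd0 hd1 rfl rfl
  obtain ⟨hB1, hB2, hB3⟩ := HB V N0 W Ω P s2 (fun n v => η (j + n) v) w t T L L' hs hη' hL hL'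
    (by linarith) hT1 hT2 ht hN hw
  have hTN0 : T ≤ N0 := by omega
  obtain ⟨hMx, hMz, _, hMZ, _, _, hMc, hMLp, _, _, _⟩ :=
    hME V C0 N0 W Ω P s2 κ (fun n v => η (j + n) v) hη'
  -- the random variable
  set X : Ω → ℝ := fun ω => XX W w T (cfg (fun n v => η (j + n) v) ω) T with hX
  have hXm : Measurable X := by
    have h1 : Measurable (fun x : ℕ → V → ℝ => XX W w T x T) := by
      unfold XX
      refine Finset.measurable_sum _ (fun z _ => ?_)
      exact ((hMZ T z).sub_const 1).const_mul _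
    exact h1.comp hMc
  have hXgt : ∀ ω, -1 < X ω := by
    intro ω
    have h1 := (hDU V C0 N0 W (cfg (fun n v => η (j + n) v) ω) w 0 T).2.2.1
    have h2 : X ω = (∑ z, w z * Zr W (cfg (fun n v => η (j + n) v) ω) T z) - ∑ z, w z := h1
    rw [h2, hw.sum]
    have h3 : 0 < ∑ z, w z * Zr W (cfg (fun n v => η (j + n) v) ω) T z := by
      have hpos : ∀ z, 0 < Zr W (cfg (fun n v => η (j + n) v) ω) T z := fun z =>
        hMz _ T z (fun n v => hη'.gt n v ω)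
      have hex : ∃ z, 0 < w z := by
        by_contra hcon
        push Not at hcon
        have : ∑ x, w x ≤ 0 := Finset.sum_nonpos (fun x _ => hcon x)
        rw [hw.sum] at this
        linarith
      obtain ⟨z₀, hz₀⟩ := hex
      exact Finset.sum_pos' (fun z _ => mul_nonneg (hw.nonneg z) (hpos z).le)
        ⟨z₀, Finset.mem_univ _, mul_pos hz₀ (hpos z₀)⟩
    linarith
  have hX4 : Integrable (fun ω => X ω ^ 4) P := by
    have h1 : MemLp X 4 P := by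
      have h2 : X = fun ω => ∑ z, wt W w (T - T) z *
          (Zr W (cfg (fun n v => η (j + n) v) ω) T z - 1) := rfl
      rw [h2]
      refine memLp_finsetSum _ (fun z _ => ?_)
      exact ((hMLp T z).sub (memLp_const 1)).const_mul _
    have h3 := h1.integrable_norm_pow (p := 4) (by norm_num)
    refine h3.congr (Filter.Eventually.of_forall (fun ω => ?_))
    simp only [Real.norm_eq_abs]
    exact (show Even 4 by decide).pow_abs (X ω)
  have hX0 : ∫ ω, X ω ∂P = 0 :=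
    (hM2 V C0 N0 W Ω P s2 κ (fun n v => η (j + n) v) hs.le hη' w hw.nonneg T hTN0).1
  -- smallness of `e` and `f`
  have hq34 : 5 * Cb * L ^ (-(3 / 4) : ℝ) ≤ 1 := by
    have hA1 : 1 ≤ 5 * Cb := by linarith
    have h1 : 5 * Cb ≤ L ^ (3 / 4 : ℝ) := by
      have h2 : (5 * Cb) ^ 2 ≤ L := by linarith
      calc 5 * Cb = (5 * Cb) ^ (1 : ℝ) := (Real.rpow_one _).symm
        _ ≤ (5 * Cb) ^ (2 * (3 / 4) : ℝ) := Real.rpow_le_rpow_of_exponent_le hA1 (by norm_num)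
        _ = ((5 * Cb) ^ 2) ^ (3 / 4 : ℝ) := by
            rw [Real.rpow_mul (by linarith)]
            congr 1
            exact Real.rpow_natCast (5 * Cb) 2
        _ ≤ L ^ (3 / 4 : ℝ) := Real.rpow_le_rpow (by positivity) h2 (by norm_num)
    have h3 : 0 < L ^ (3 / 4 : ℝ) := Real.rpow_pos_of_pos hL0 _
    rw [Real.rpow_neg hL0.le, ← div_eq_mul_inv, div_le_one h3]
    exact h1
  have hq0 : 0 < L ^ (-(3 / 4) : ℝ) := Real.rpow_pos_of_pos hL0 _
  have hlv := HL Ω P X (Real.log (L / L')) (Cb * (1 + Real.log L) / L) (Cb / L) hXm hXgt hX4 hX0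
    hd0 hd2 he2 (he1.trans hq34) hf2 (hf1.trans (by nlinarith)) hB1 hB2 u
  -- the chain
  set ρ : ℂ := Complex.exp ((-(u ^ 2 / 2 * Real.log (L' / Ls)) : ℝ)) with hρ
  have hlog2 : 0 ≤ Real.log (L' / Ls) := by
    refine Real.log_nonneg ?_
    rw [le_div_iff₀ hLspos]; linarith
  have hρ1 : ‖ρ‖ ≤ 1 := by
    rw [hρ, Complex.norm_exp, Complex.ofReal_re]
    refine Real.exp_le_one_iff.mpr ?_
    have : 0 ≤ u ^ 2 / 2 * Real.log (L' / Ls) := by positivity
    linarith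
  have hchn := hCHN hME hIND hF hDU V C0 N0 W Ω P s2 κ η w j T u (1 / 2 * Real.log (L / L'))
    (1 / 2 * Real.log (L' / Ls)) e0 (Cb / L) ρ {w' | Good W (t + T) L' w'} hη hw.nonneg hw.sum
    (hGM V C0 N0 W (t + T) L') hρ1 he0 hih hB3
  have hsum : 1 / 2 * Real.log (L / L') + 1 / 2 * Real.log (L' / Ls) =
      1 / 2 * Real.log (L / Ls) := by
    rw [← mul_add, ← Real.log_mul (by positivity) (by positivity)]
    congr 2
    field_simp
  rw [hsum] at hchn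
  have hmul : Complex.exp ((-(u ^ 2 / 2 * Real.log (L / L')) : ℝ)) * ρ =
      Complex.exp ((-(u ^ 2 / 2 * Real.log (L / Ls)) : ℝ)) := by
    rw [hρ, ← Complex.exp_add, ← Complex.ofReal_add]
    congr 2
    have : Real.log (L / Ls) = Real.log (L / L') + Real.log (L' / Ls) := by
      rw [← Real.log_mul (by positivity) (by positivity)]
      congr 1
      field_simp
    rw [this]; ring
  rw [← hmul]
  set A : ℂ := ∫ ω, Complex.exp (Complex.I * (u * (Real.log (1 + X ω) +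
    1 / 2 * Real.log (L / L')) : ℝ)) ∂P with hA
  have hchn' : ‖chi W P η u (1 / 2 * Real.log (L / Ls)) (j + T) w - A * ρ‖ ≤
      e0 + 2 * (Cb / L) := hchn
  have hlv' : ‖A - Complex.exp ((-(u ^ 2 / 2 * Real.log (L / L')) : ℝ))‖ ≤
      Cl * (1 + u ^ 4) * (Cb * (1 + Real.log L) / L + Cb / L +
        Real.sqrt ((Real.log (L / L') + Cb * (1 + Real.log L) / L) * (Cb / L)) +
        Real.log (L / L') ^ 2) := hlv
  have hu : 1 ≤ 1 + u ^ 4 := by
    have : 0 ≤ u ^ 4 := by positivity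
    linarith
  calc ‖chi W P η u (1 / 2 * Real.log (L / Ls)) (j + T) w -
        Complex.exp ((-(u ^ 2 / 2 * Real.log (L / L')) : ℝ)) * ρ‖
      = ‖(chi W P η u (1 / 2 * Real.log (L / Ls)) (j + T) w - A * ρ) +
          (A - Complex.exp ((-(u ^ 2 / 2 * Real.log (L / L')) : ℝ))) * ρ‖ := by
        congr 1; ring
    _ ≤ ‖chi W P η u (1 / 2 * Real.log (L / Ls)) (j + T) w - A * ρ‖ +
          ‖(A - Complex.exp ((-(u ^ 2 / 2 * Real.log (L / L')) : ℝ))) * ρ‖ := norm_add_le _ _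
    _ ≤ (e0 + 2 * (Cb / L)) + Cl * (1 + u ^ 4) * (Cb * (1 + Real.log L) / L + Cb / L +
        Real.sqrt ((Real.log (L / L') + Cb * (1 + Real.log L) / L) * (Cb / L)) +
        Real.log (L / L') ^ 2) := by
        refine add_le_add hchn' ?_
        rw [norm_mul]
        calc ‖A - Complex.exp ((-(u ^ 2 / 2 * Real.log (L / L')) : ℝ))‖ * ‖ρ‖
            ≤ ‖A - Complex.exp ((-(u ^ 2 / 2 * Real.log (L / L')) : ℝ))‖ * 1 :=
              mul_le_mul_of_nonneg_left hρ1 (norm_nonneg _)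
          _ ≤ _ := by rw [mul_one]; exact hlv'
    _ ≤ (e0 + 2 * (Cb * L ^ (-(3 / 4) : ℝ))) + Cl * (1 + u ^ 4) *
          (5 * Cb * L ^ (-(3 / 4) : ℝ) + Cb * L ^ (-(3 / 4) : ℝ) +
            3 * Cb * L ^ (-(3 / 4) : ℝ) + 16 * L ^ (-(3 / 4) : ℝ)) := by
        refine add_le_add (by linarith) ?_
        refine mul_le_mul_of_nonneg_left ?_ (by positivity)
        linarith
    _ ≤ e0 + (2 * Cb * (1 + u ^ 4)) * L ^ (-(3 / 4) : ℝ) + Cl * (1 + u ^ 4) *
          (5 * Cb * L ^ (-(3 / 4) : ℝ) + Cb * L ^ (-(3 / 4) : ℝ) +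
            3 * Cb * L ^ (-(3 / 4) : ℝ) + 16 * L ^ (-(3 / 4) : ℝ)) := by
        have h1 : 2 * (Cb * L ^ (-(3 / 4) : ℝ)) ≤ (2 * Cb * (1 + u ^ 4)) * L ^ (-(3 / 4) : ℝ) := by
          have h2 : 0 ≤ 2 * (Cb * L ^ (-(3 / 4) : ℝ)) := by positivity
          calc 2 * (Cb * L ^ (-(3 / 4) : ℝ)) ≤ 2 * (Cb * L ^ (-(3 / 4) : ℝ)) * (1 + u ^ 4) :=
                le_mul_of_one_le_right h2 hu
            _ = _ := by ring
        linarith
    _ = e0 + (2 * Cb + Cl * (9 * Cb + 16)) * (1 + u ^ 4) * L ^ (-(3 / 4) : ℝ) := by ring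

end Pool.Agent.H236.QC
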